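import Mathlib
set_option autoImplicit false

/-!
# The mean of `|z ^ b - 1| ^ (-1/2)` on the unit circle
-/

namespace Pool.Agent.Q168.Lehmer
open Real MeasureTheory intervalIntegral

/-- `|exp (i θ) - 1| ^ (-1/2)` -/
noncomputable def K (θ : ℝ) : ℝ := ‖circleMap 0 1 θ - 1‖ ^ (-(1 / 2) : ℝ)

theorem circleMap_one (θ : ℝ) : circleMap 0 1 θ = Complex.exp (θ * Complex.I) := by
  simp [circleMap]

theorem norm_eq (θ : ℝ) : ‖circleMap 0 1 θ - 1‖ = |2 * Real.sin (θ / 2)| := by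
  rw [circleMap_one, mul_comm]
  rw [Complex.norm_exp_I_mul_ofReal_sub_one, Real.norm_eq_abs]

theorem K_nonneg (θ : ℝ) : 0 ≤ K θ := Real.rpow_nonneg (norm_nonneg _) _

theorem K_periodic : Function.Periodic K (2 * π) := by
  intro θ
  unfold K
  rw [periodic_circleMap 0 1 θ]

theorem norm_lower {θ : ℝ} (h0 : 0 < θ) (h1 : θ < 2 * π) :
    2 / π * min θ (2 * π - θ) ≤ ‖circleMap 0 1 θ - 1‖ := by
  have hπ := Real.pi_pos
  rw [norm_eq]
  have key : ∀ x : ℝ, 0 ≤ x → x ≤ π → 2 / π * x ≤ 2 * Real.sin (x / 2) := by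
    intro x hx0 hx1
    have := Real.mul_le_sin (x := x / 2) (by linarith) (by linarith)
    calc 2 / π * x = 2 * (2 / π * (x / 2)) := by ring
      _ ≤ _ := by linarith
  rcases le_total θ π with h | h
  · have h2 : min θ (2 * π - θ) = θ := min_eq_left (by linarith)
    rw [h2]
    exact (key θ h0.le h).trans (le_abs_self _)
  · have h2 : min θ (2 * π - θ) = 2 * π - θ := min_eq_right (by linarith)
    rw [h2]
    refine (key (2 * π - θ) (by linarith) (by linarith)).trans (le_trans (le_of_eq ?_) (le_abs_self _))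
    rw [show (2 * π - θ) / 2 = π - θ / 2 by ring, Real.sin_pi_sub]

theorem K_le {θ : ℝ} (h0 : 0 < θ) (h1 : θ < 2 * π) :
    K θ ≤ √(π / 2) * (θ ^ (-(1 / 2) : ℝ) + (2 * π - θ) ^ (-(1 / 2) : ℝ)) := by
  have hπ := Real.pi_pos
  have h2 : 0 < 2 * π - θ := by linarith
  have hm : 0 < min θ (2 * π - θ) := lt_min h0 h2
  have e1 : (2 / π : ℝ) ^ (-(1 / 2) : ℝ) = √(π / 2) := by
    rw [Real.sqrt_eq_rpow, Real.rpow_neg (by positivity), ← Real.inv_rpow (by positivity)]
    congr 1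
    field_simp
  have h3 : K θ ≤ (2 / π * min θ (2 * π - θ)) ^ (-(1 / 2) : ℝ) := by
    unfold K
    apply Real.rpow_le_rpow_of_nonpos (by positivity) (norm_lower h0 h1) (by norm_num)
  refine h3.trans ?_
  rw [Real.mul_rpow (by positivity) hm.le, e1]
  apply mul_le_mul_of_nonneg_left _ (Real.sqrt_nonneg _)
  rcases min_choice θ (2 * π - θ) with h | h
  · rw [h]
    have := Real.rpow_nonneg h2.le (-(1 / 2) : ℝ)
    linarith
  · rw [h]
    have := Real.rpow_nonneg h0.le (-(1 / 2) : ℝ)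
    linarith

theorem K_meas : Measurable K := by
  unfold K
  have h1 : Measurable fun θ : ℝ => ‖circleMap 0 1 θ - 1‖ :=
    ((continuous_circleMap 0 1).sub continuous_const).norm.measurable
  exact h1.pow_const _

theorem dom_int : IntervalIntegrable
    (fun θ : ℝ => √(π / 2) * (θ ^ (-(1 / 2) : ℝ) + (2 * π - θ) ^ (-(1 / 2) : ℝ)))
      volume 0 (2 * π) := by
  have h1 : IntervalIntegrable (fun θ : ℝ => θ ^ (-(1 / 2) : ℝ)) volume 0 (2 * π) :=
    intervalIntegrable_rpow' (by norm_num)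
  have h2 : IntervalIntegrable (fun θ : ℝ => (2 * π - θ) ^ (-(1 / 2) : ℝ)) volume 0 (2 * π) := by
    have := (h1.comp_sub_left (2 * π))
    simp only [sub_zero, sub_self] at this
    exact this.symm
  exact (h1.add h2).const_mul _

theorem dom_val : ∫ θ in (0:ℝ)..(2 * π),
    √(π / 2) * (θ ^ (-(1 / 2) : ℝ) + (2 * π - θ) ^ (-(1 / 2) : ℝ)) = 4 * π := by
  have h1 : IntervalIntegrable (fun θ : ℝ => θ ^ (-(1 / 2) : ℝ)) volume 0 (2 * π) :=
    intervalIntegrable_rpow' (by norm_num)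
  have h2 : IntervalIntegrable (fun θ : ℝ => (2 * π - θ) ^ (-(1 / 2) : ℝ)) volume 0 (2 * π) := by
    have := (h1.comp_sub_left (2 * π))
    simp only [sub_zero, sub_self] at this
    exact this.symm
  have e1 : ∫ θ in (0:ℝ)..(2 * π), θ ^ (-(1 / 2) : ℝ) = 2 * √(2 * π) := by
    rw [integral_rpow (Or.inl (by norm_num)), Real.sqrt_eq_rpow,
      show (-(1 / 2) + 1 : ℝ) = 1 / 2 by norm_num, Real.zero_rpow (by norm_num)]
    ring
  have e2 : ∫ θ in (0:ℝ)..(2 * π), (2 * π - θ) ^ (-(1 / 2) : ℝ) = 2 * √(2 * π) := by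
    rw [intervalIntegral.integral_comp_sub_left (fun θ : ℝ => θ ^ (-(1 / 2) : ℝ)) (2 * π)]
    simpa using e1
  rw [intervalIntegral.integral_const_mul, intervalIntegral.integral_add h1 h2, e1, e2]
  have hπ := Real.pi_pos
  have e3 : √(π / 2) * √(2 * π) = π := by
    rw [← Real.sqrt_mul (by positivity), show π / 2 * (2 * π) = π ^ 2 by ring,
      Real.sqrt_sq hπ.le]
  linear_combination 4 * e3

theorem K_int : IntervalIntegrable K volume 0 (2 * π) := by
  have hπ := Real.pi_pos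
  apply dom_int.mono_fun K_meas.aestronglyMeasurable
  have h0 : ∀ᵐ θ : ℝ ∂(volume.restrict (Set.uIoc 0 (2 * π))), θ ≠ 2 * π := by
    apply ae_restrict_of_ae
    rw [ae_iff]
    simp only [ne_eq, not_not, Set.ofPred_eq_eq_singleton]
    exact measure_singleton _
  have h00 : ∀ᵐ θ : ℝ ∂(volume.restrict (Set.uIoc 0 (2 * π))), θ ∈ Set.uIoc 0 (2 * π) :=
    ae_restrict_mem measurableSet_uIoc
  filter_upwards [h0, h00] with θ h1 h2
  rw [Set.uIoc_of_le (by positivity)] at h2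
  have h3 := K_le h2.1 (lt_of_le_of_ne h2.2 h1)
  rw [Real.norm_eq_abs, abs_of_nonneg (K_nonneg θ), Real.norm_eq_abs]
  exact h3.trans (le_abs_self _)

theorem K_val : ∫ θ in (0:ℝ)..(2 * π), K θ ≤ 4 * π := by
  have hπ := Real.pi_pos
  rw [← dom_val]
  apply intervalIntegral.integral_mono_on_of_le_Ioo (by positivity) K_int dom_int
  intro θ h
  exact K_le h.1 h.2

theorem Kb_int (b : ℕ) (hb : b ≠ 0) :
    IntervalIntegrable (fun θ => K (b * θ)) volume 0 (2 * π) := by
  have hb0 : (b : ℝ) ≠ 0 := by exact_mod_cast hb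
  have h1 : IntervalIntegrable K volume 0 (b * (2 * π)) := by
    apply K_periodic.intervalIntegrable (by positivity) (t := 0)
    simpa using K_int
  have h2 := h1.comp_mul_left (c := (b : ℝ))
  have e1 : (0 : ℝ) / b = 0 := by simp
  have e2 : (b : ℝ) * (2 * π) / b = 2 * π := by field_simp
  rw [e1, e2] at h2
  exact h2

theorem Kb_val (b : ℕ) (hb : b ≠ 0) : ∫ θ in (0:ℝ)..(2 * π), K (b * θ) ≤ 4 * π := by
  have hb0 : (b : ℝ) ≠ 0 := by exact_mod_cast hb
  rw [intervalIntegral.integral_comp_mul_left K hb0]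
  have h1 : ∫ θ in (b : ℝ) * 0..(b : ℝ) * (2 * π), K θ = b * ∫ θ in (0:ℝ)..(2 * π), K θ := by
    have h := K_periodic.intervalIntegral_add_zsmul_eq (b : ℤ) 0
      (fun t₁ t₂ => K_periodic.intervalIntegrable (by positivity) (t := 0) (by simpa using K_int) _ _)
    simp only [zero_add, zsmul_eq_mul, Int.cast_natCast] at h
    rw [mul_zero]
    exact h
  rw [h1, smul_eq_mul, ← mul_assoc, inv_mul_cancel₀ hb0, one_mul]
  exact K_val

end Pool.Agent.Q168.Lehmer
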