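import Mathlib
import Pool.Agent.Y947.DP.Fin
import Pool.Agent.Q168.Lehmer.Sing
set_option autoImplicit false

/-!
# The mean of `log⁺ |f|` for sums of fractions with small denominators
-/

namespace Pool.Agent.Q168.Lehmer
open Real MeasureTheory intervalIntegral Polynomial

/-- `∑_{b ∈ B} (1 + |z ^ b - 1| ^ (-1/2))` at `z = exp (i θ)` -/
noncomputable def G (B : Finset ℕ) (θ : ℝ) : ℝ := ∑ b ∈ B, (1 + K (b * θ))

theorem circleMap_pow (θ : ℝ) (b : ℕ) : circleMap 0 1 θ ^ b = circleMap 0 1 (b * θ) := by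
  rw [circleMap_one, circleMap_one, ← Complex.exp_nat_mul]
  push_cast
  ring_nf

theorem G_int (B : Finset ℕ) (hB : 0 ∉ B) : IntervalIntegrable (G B) volume 0 (2 * π) := by
  unfold G
  have : (fun θ : ℝ => ∑ b ∈ B, (1 + K (b * θ))) = ∑ b ∈ B, fun θ : ℝ => (1 + K (b * θ)) := by
    funext θ; simp
  rw [this]
  apply IntervalIntegrable.sum
  intro b hb
  have hb0 : b ≠ 0 := fun h => hB (h ▸ hb)
  exact intervalIntegrable_const.add (Kb_int b hb0)

theorem G_val (B : Finset ℕ) (hB : 0 ∉ B) :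
    ∫ θ in (0:ℝ)..(2 * π), G B θ ≤ 6 * π * B.card := by
  unfold G
  rw [intervalIntegral.integral_finsetSum]
  · have : ∀ b ∈ B, ∫ θ in (0:ℝ)..(2 * π), (1 + K (b * θ)) ≤ 6 * π := by
      intro b hb
      have hb0 : b ≠ 0 := fun h => hB (h ▸ hb)
      rw [intervalIntegral.integral_add intervalIntegrable_const (Kb_int b hb0)]
      have := Kb_val b hb0
      simp only [intervalIntegral.integral_const, sub_zero, smul_eq_mul, mul_one]
      linarith
    calc _ ≤ ∑ b ∈ B, 6 * π := Finset.sum_le_sum this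
      _ = _ := by rw [Finset.sum_const, nsmul_eq_mul]; ring
  · intro b hb
    have hb0 : b ≠ 0 := fun h => hB (h ▸ hb)
    exact intervalIntegrable_const.add (Kb_int b hb0)

theorem G_ge (B : Finset ℕ) (b : ℕ) (hb : b ∈ B) (θ : ℝ) : 1 + K (b * θ) ≤ G B θ := by
  unfold G
  apply Finset.single_le_sum (f := fun b : ℕ => 1 + K (b * θ)) _ hb
  intro i _
  have := K_nonneg (i * θ)
  linarith

theorem one_le_G (B : Finset ℕ) (hB : B.Nonempty) (θ : ℝ) : 1 ≤ G B θ := by
  obtain ⟨b, hb⟩ := hB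
  have h1 := G_ge B b hb θ
  have := K_nonneg (b * θ)
  linarith

theorem inv_norm_le (B : Finset ℕ) (b : ℕ) (hb : b ∈ B) (θ : ℝ) :
    ‖circleMap 0 1 θ ^ b - 1‖⁻¹ ≤ G B θ ^ 2 := by
  have h1 : ‖circleMap 0 1 θ ^ b - 1‖⁻¹ = K (b * θ) ^ 2 := by
    unfold K
    rw [circleMap_pow, ← Real.rpow_natCast, ← Real.rpow_mul (norm_nonneg _)]
    norm_num
    rw [Real.rpow_neg_one]
  rw [h1]
  have h2 := G_ge B b hb θ
  have h3 := K_nonneg (b * θ)
  apply pow_le_pow_left₀ h3
  linarith

theorem prod_inv_le (B : Finset ℕ) (θ : ℝ) (N : Multiset ℕ) (hN : ∀ b ∈ N, b ∈ B) :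
    ‖(N.map fun b => circleMap 0 1 θ ^ b - 1).prod‖⁻¹ ≤ (G B θ ^ 2) ^ N.card := by
  induction N using Multiset.induction_on with
  | empty => simp
  | cons b N ih =>
    rw [Multiset.map_cons, Multiset.prod_cons, norm_mul, mul_inv, Multiset.card_cons, pow_succ']
    have hb : b ∈ B := hN b (Multiset.mem_cons_self b N)
    apply mul_le_mul (inv_norm_le B b hb θ) (ih fun x hx => hN x (Multiset.mem_cons_of_mem hx))
      (inv_nonneg.2 (norm_nonneg _)) (by positivity)

/-- the pointwise bound -/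
theorem pointwise {ι : Type*} (s : Finset ι) (P : ι → ℂ → ℂ) (L : ι → ℝ)
    (hL : ∀ i ∈ s, ∀ z : ℂ, ‖z‖ = 1 → ‖P i z‖ ≤ L i) (N : ι → Multiset ℕ) (B : Finset ℕ)
    (r : ℕ) (hB : B.Nonempty) (hN : ∀ i ∈ s, (N i).card ≤ r ∧ ∀ b ∈ N i, b ∈ B) (θ : ℝ) :
    ‖∑ i ∈ s, P i (circleMap 0 1 θ) /
      ((N i).map fun b => circleMap 0 1 θ ^ b - 1).prod‖ ≤
      (∑ i ∈ s, L i) * (G B θ ^ 2) ^ r := by
  have h1 := one_le_G B hB θ
  rw [Finset.sum_mul]
  refine (norm_sum_le _ _).trans (Finset.sum_le_sum fun i hi => ?_)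
  rw [div_eq_mul_inv, norm_mul, norm_inv]
  have hP := hL i hi (circleMap 0 1 θ) (by simp)
  apply mul_le_mul hP _ (inv_nonneg.2 (norm_nonneg _)) ((norm_nonneg _).trans hP)
  refine (prod_inv_le B θ (N i) (hN i hi).2).trans ?_
  exact pow_le_pow_right₀ (one_le_pow₀ h1) (hN i hi).1

theorem bad_finite (B : Finset ℕ) (hB : 0 ∉ B) :
    ∀ᵐ θ : ℝ ∂(volume.restrict (Set.Ioo 0 (2 * π))), ∀ b ∈ B, circleMap 0 1 θ ^ b ≠ 1 := by
  have hc : Set.Countable {θ : ℝ | ¬ ∀ b ∈ B, circleMap 0 1 θ ^ b ≠ 1} := by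
    have : {θ : ℝ | ¬ ∀ b ∈ B, circleMap 0 1 θ ^ b ≠ 1} ⊆
        ⋃ b ∈ B, Set.range fun n : ℤ => (n : ℝ) * (2 * π) / b := by
      intro θ hθ
      simp only [not_forall, not_not, Set.mem_ofPred_eq] at hθ
      obtain ⟨b, hb, hb1⟩ := hθ
      have hb0 : (b : ℝ) ≠ 0 := by
        have : b ≠ 0 := fun h => hB (h ▸ hb)
        exact_mod_cast this
      rw [Set.mem_iUnion₂]
      refine ⟨b, hb, ?_⟩
      rw [circleMap_pow, circleMap_one, Complex.exp_eq_one_iff] at hb1
      obtain ⟨n, hn⟩ := hb1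
      refine ⟨n, ?_⟩
      have h2 : ((b * θ : ℝ) : ℂ) * Complex.I = ((n * (2 * π) : ℝ) : ℂ) * Complex.I := by
        rw [hn]; push_cast; ring
      have h3 := mul_right_cancel₀ Complex.I_ne_zero h2
      have h4 : (b : ℝ) * θ = n * (2 * π) := by exact_mod_cast h3
      simp only
      rw [← h4]
      field_simp
    apply Set.Countable.mono this
    exact B.countable_toSet.biUnion fun b _ => Set.countable_range _
  apply ae_restrict_of_ae
  rw [ae_iff]
  exact hc.measure_zero _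

/-- the mean of `log⁺ |f|` -/
theorem mean_le (f : ℤ[X]) {ι : Type*} (s : Finset ι) (P : ι → ℂ → ℂ) (L : ι → ℝ)
    (hL : ∀ i ∈ s, ∀ z : ℂ, ‖z‖ = 1 → ‖P i z‖ ≤ L i) (N : ι → Multiset ℕ)
    (B : Finset ℕ) (r : ℕ) (hB : B.Nonempty) (hB0 : 0 ∉ B)
    (hN : ∀ i ∈ s, (N i).card ≤ r ∧ ∀ b ∈ N i, b ∈ B)
    (hf : ∀ z : ℂ, ‖z‖ = 1 → (∀ b ∈ B, z ^ b ≠ 1) →
      aeval z f = ∑ i ∈ s, P i z / ((N i).map fun b => z ^ b - 1).prod) :
    Y947.DP.mp f ≤ Real.log (1 + ∑ i ∈ s, L i) + 2 * r * Real.log (3 * B.card) := by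
  have hπ := Real.pi_pos
  have hcard : (0 : ℝ) < B.card := by exact_mod_cast hB.card_pos
  have hcard1 : (1 : ℝ) ≤ B.card := by exact_mod_cast hB.card_pos
  set A := ∑ i ∈ s, L i with hA
  have hA0 : 0 ≤ A := Finset.sum_nonneg fun i hi => (norm_nonneg _).trans (hL i hi 1 (by simp))
  -- the majorant
  let R : ℝ → ℝ := fun θ => Real.log (1 + A) + 2 * r * (Real.log (3 * B.card) - 1) +
    (2 * r / (3 * B.card)) * G B θ
  have hRint : IntervalIntegrable R volume 0 (2 * π) :=
    intervalIntegrable_const.add ((G_int B hB0).const_mul _)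
  have hcirc : CircleIntegrable (fun z : ℂ => posLog ‖aeval z f‖) 0 1 := by
    have : MeromorphicOn (fun z : ℂ => aeval z f) (Metric.sphere (0 : ℂ) |1|) := by
      intro z _
      have h1 : (fun z : ℂ => aeval z f) = fun z : ℂ => (f.map (Int.castRingHom ℂ)).eval z := by
        funext w
        rw [aeval_def, eval₂_eq_eval_map]
        rfl
      rw [h1]
      exact ((f.map (Int.castRingHom ℂ)).differentiable.analyticAt z).meromorphicAt
    exact this.circleIntegrable_posLog_norm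
  have hLint : IntervalIntegrable (fun θ => posLog ‖aeval (circleMap 0 1 θ) f‖) volume 0 (2 * π) :=
    hcirc
  have hmono : ∫ θ in (0:ℝ)..(2 * π), posLog ‖aeval (circleMap 0 1 θ) f‖ ≤
      ∫ θ in (0:ℝ)..(2 * π), R θ := by
    rw [intervalIntegral.integral_of_le (by positivity), intervalIntegral.integral_of_le (by positivity),
      MeasureTheory.integral_Ioc_eq_integral_Ioo, MeasureTheory.integral_Ioc_eq_integral_Ioo]
    apply MeasureTheory.integral_mono_ae
    · have h1 := (intervalIntegrable_iff_integrableOn_Ioc_of_le (by positivity)).1 hLint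
      exact h1.mono_set Set.Ioo_subset_Ioc_self
    · have h1 := (intervalIntegrable_iff_integrableOn_Ioc_of_le (by positivity)).1 hRint
      exact h1.mono_set Set.Ioo_subset_Ioc_self
    filter_upwards [bad_finite B hB0] with θ hθ
    have h1 := pointwise s P L hL N B r hB hN θ
    rw [← hf _ (by simp) hθ] at h1
    have hG1 := one_le_G B hB θ
    have hG0 : 0 < G B θ := by linarith
    have hlog : Real.log (G B θ) ≤ Real.log (3 * B.card) - 1 + G B θ / (3 * B.card) := by
      have h2 := Real.log_le_sub_one_of_pos (x := G B θ / (3 * B.card)) (by positivity)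
      rw [Real.log_div hG0.ne' (by positivity)] at h2
      linarith
    have hb : posLog ‖aeval (circleMap 0 1 θ) f‖ ≤
        Real.log (1 + A) + 2 * r * Real.log (G B θ) := by
      have h3 : 0 ≤ Real.log (1 + A) := Real.log_nonneg (by linarith)
      have h4 : 0 ≤ Real.log (G B θ) := Real.log_nonneg hG1
      apply max_le
      · positivity
      · rcases eq_or_lt_of_le (norm_nonneg (aeval (circleMap 0 1 θ) f)) with h5 | h5
        · rw [← h5, Real.log_zero]
          positivity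
        · have h6 : ‖aeval (circleMap 0 1 θ) f‖ ≤ (1 + A) * (G B θ ^ 2) ^ r := by
            refine h1.trans ?_
            apply mul_le_mul_of_nonneg_right _ (by positivity)
            linarith
          have h7 := Real.log_le_log h5 h6
          rw [Real.log_mul (by positivity) (by positivity), Real.log_pow, Real.log_pow] at h7
          push_cast at h7
          linarith
    refine hb.trans ?_
    have hr : (0 : ℝ) ≤ 2 * r := by positivity
    have h8 := mul_le_mul_of_nonneg_left hlog hr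
    calc Real.log (1 + A) + 2 * r * Real.log (G B θ)
        ≤ Real.log (1 + A) + 2 * r * (Real.log (3 * B.card) - 1 + G B θ / (3 * B.card)) := by
          linarith
      _ = R θ := by simp only [R]; ring
  have hRval : ∫ θ in (0:ℝ)..(2 * π), R θ ≤
      2 * π * (Real.log (1 + A) + 2 * r * Real.log (3 * B.card)) := by
    simp only [R]
    rw [intervalIntegral.integral_add intervalIntegrable_const ((G_int B hB0).const_mul _),
      intervalIntegral.integral_const_mul, intervalIntegral.integral_const]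
    have h1 := G_val B hB0
    have h2 : (0 : ℝ) ≤ 2 * r / (3 * B.card) := by positivity
    have h3 := mul_le_mul_of_nonneg_left h1 h2
    have h4 : 2 * (r : ℝ) / (3 * B.card) * (6 * π * B.card) = 2 * π * (2 * r) := by
      field_simp
      ring
    rw [smul_eq_mul, sub_zero]
    rw [h4] at h3
    linarith
  unfold Y947.DP.mp
  rw [Real.circleAverage_def, smul_eq_mul]
  rw [inv_mul_le_iff₀ (by positivity)]
  exact hmono.trans hRval

/-- the main inequality -/
theorem main : ∃ c : ℝ, 0 < c ∧ ∀ (f : ℤ[X]), Irreducible f →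
    1 < (f.map (Int.castRingHom ℂ)).mahlerMeasure →
    ∀ (ι : Type) (s : Finset ι) (P : ι → ℂ → ℂ) (L : ι → ℝ),
    (∀ i ∈ s, ∀ z : ℂ, ‖z‖ = 1 → ‖P i z‖ ≤ L i) → ∀ (N : ι → Multiset ℕ) (B : Finset ℕ) (r : ℕ),
    B.Nonempty → 0 ∉ B → (∀ i ∈ s, (N i).card ≤ r ∧ ∀ b ∈ N i, b ∈ B) →
    (∀ z : ℂ, ‖z‖ = 1 → (∀ b ∈ B, z ^ b ≠ 1) →
      aeval z f = ∑ i ∈ s, P i z / ((N i).map fun b => z ^ b - 1).prod) →
    c / (1 + Real.log (1 + ∑ i ∈ s, L i) + r * (1 + Real.log B.card)) ^ 3 ≤
      Real.log (f.map (Int.castRingHom ℂ)).mahlerMeasure := by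
  obtain ⟨c, hc, H⟩ := Y947.DP.irr_case3
  refine ⟨c / 64, by positivity, ?_⟩
  intro f hirr hM ι s P L hL N B r hB hB0 hN hf
  have h1 := H f hirr hM
  have h2 := mean_le f s P L hL N B r hB hB0 hN hf
  have hcard1 : (1 : ℝ) ≤ B.card := by exact_mod_cast hB.card_pos
  have hlb : 0 ≤ Real.log B.card := Real.log_nonneg hcard1
  have hA0 : 0 ≤ ∑ i ∈ s, L i :=
    Finset.sum_nonneg fun i hi => (norm_nonneg _).trans (hL i hi 1 (by simp))
  have hla : 0 ≤ Real.log (1 + ∑ i ∈ s, L i) := Real.log_nonneg (by linarith)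
  have hl3 : Real.log 3 ≤ 2 := by
    have := Real.log_le_sub_one_of_pos (x := 3) (by norm_num)
    linarith
  have h3 : Real.log (3 * B.card) = Real.log 3 + Real.log B.card :=
    Real.log_mul (by norm_num) (by positivity)
  have h4 := Y947.DP.mp_nonneg f
  refine le_trans ?_ h1
  have h5 : 1 + Y947.DP.mp f ≤ 4 * (1 + Real.log (1 + ∑ i ∈ s, L i) +
      r * (1 + Real.log B.card)) := by
    have h6 : (0 : ℝ) ≤ r := by positivity
    have h7 := mul_le_mul_of_nonneg_left hl3 h6
    have h8 := mul_nonneg h6 hlb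
    rw [h3] at h2
    nlinarith
  rw [div_div, div_le_div_iff_of_pos_left hc (by positivity) (by positivity)]
  calc (1 + Y947.DP.mp f) ^ 3 ≤ (4 * (1 + Real.log (1 + ∑ i ∈ s, L i) +
      r * (1 + Real.log B.card))) ^ 3 := pow_le_pow_left₀ (by positivity) h5 3
    _ = _ := by ring

/-- A product of geometric progressions `1 + X ^ b + ... + X ^ ((a - 1) b)`. -/
noncomputable def gap (Q : Multiset (ℕ × ℕ)) : ℤ[X] :=
  (Q.map fun q => ∑ i ∈ Finset.range q.1, (X : ℤ[X]) ^ (i * q.2)).prod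

theorem geom_val (a b : ℕ) (z : ℂ) (hz : z ^ b ≠ 1) :
    aeval z (∑ i ∈ Finset.range a, (X : ℤ[X]) ^ (i * b)) = (z ^ (a * b) - 1) / (z ^ b - 1) := by
  simp only [map_sum, map_pow, aeval_X]
  have h1 : ∑ i ∈ Finset.range a, z ^ (i * b) = ∑ i ∈ Finset.range a, (z ^ b) ^ i :=
    Finset.sum_congr rfl fun i _ => by rw [← pow_mul, mul_comm]
  rw [h1, geom_sum_eq hz, ← pow_mul, mul_comm b a]

theorem gap_val (Q : Multiset (ℕ × ℕ)) (z : ℂ) (hz : ∀ q ∈ Q, z ^ q.2 ≠ 1) :
    aeval z (gap Q) = (Q.map fun q => z ^ (q.1 * q.2) - 1).prod /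
      ((Q.map Prod.snd).map fun b => z ^ b - 1).prod := by
  unfold gap
  induction Q using Multiset.induction_on with
  | empty => simp
  | cons q Q ih =>
    simp only [Multiset.map_cons, Multiset.prod_cons]
    rw [map_mul, geom_val _ _ _ (hz q (Multiset.mem_cons_self q Q)),
      ih fun x hx => hz x (Multiset.mem_cons_of_mem hx), div_mul_div_comm]

theorem num_le (Q : Multiset (ℕ × ℕ)) (z : ℂ) (hz : ‖z‖ = 1) :
    ‖(Q.map fun q => z ^ (q.1 * q.2) - 1).prod‖ ≤ 2 ^ Q.card := by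
  induction Q using Multiset.induction_on with
  | empty => simp
  | cons q Q ih =>
    rw [Multiset.map_cons, Multiset.prod_cons, norm_mul, Multiset.card_cons, pow_succ']
    apply mul_le_mul _ ih (norm_nonneg _) (by norm_num)
    refine (norm_sub_le _ _).trans ?_
    rw [norm_pow, hz, one_pow, norm_one]
    norm_num

theorem main_gap : ∃ c : ℝ, 0 < c ∧ ∀ (A r : ℕ) (ε : Fin A → ℤ) (e : Fin A → ℕ)
    (Q : Fin A → Multiset (ℕ × ℕ)), (∀ j, |ε j| = 1) →
    (∀ j, (Q j).card ≤ r ∧ ∀ q ∈ Q j, 0 < q.2) →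
    Irreducible (∑ j, C (ε j) * X ^ e j * gap (Q j)) →
    1 < ((∑ j, C (ε j) * X ^ e j * gap (Q j)).map (Int.castRingHom ℂ)).mahlerMeasure →
    c / ((1 + r) * (1 + Real.log ((1 + r) * A))) ^ 3 ≤
      Real.log ((∑ j, C (ε j) * X ^ e j * gap (Q j)).map (Int.castRingHom ℂ)).mahlerMeasure := by
  classical
  obtain ⟨c, hc, H⟩ := main
  refine ⟨c / 64, by positivity, ?_⟩
  intro A r ε e Q hε hQ hirr hM
  have hA : 0 < A := by
    rcases Nat.eq_zero_or_pos A with h | h
    · subst h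
      simp at hirr
    · exact h
  set B : Finset ℕ := insert 1 (Finset.univ.biUnion fun j : Fin A => ((Q j).map Prod.snd).toFinset)
    with hBdef
  have hBc : B.card ≤ (1 + r) * A := by
    refine (Finset.card_insert_le _ _).trans ?_
    have h1 : (Finset.univ.biUnion fun j : Fin A => ((Q j).map Prod.snd).toFinset).card ≤
        A * r := by
      refine Finset.card_biUnion_le.trans ?_
      calc ∑ j : Fin A, ((Q j).map Prod.snd).toFinset.card ≤ ∑ j : Fin A, r := by
            apply Finset.sum_le_sum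
            intro j _
            refine (Multiset.toFinset_card_le _).trans ?_
            rw [Multiset.card_map]
            exact (hQ j).1
        _ = A * r := by simp
    nlinarith
  have hB : B.Nonempty := ⟨1, Finset.mem_insert_self _ _⟩
  have hmem : ∀ j, ∀ q ∈ Q j, q.2 ∈ B := by
    intro j q hq
    apply Finset.mem_insert_of_mem
    rw [Finset.mem_biUnion]
    exact ⟨j, Finset.mem_univ _, by rw [Multiset.mem_toFinset]; exact Multiset.mem_map_of_mem _ hq⟩
  have hB0 : 0 ∉ B := by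
    intro h
    rw [hBdef, Finset.mem_insert] at h
    rcases h with h | h
    · exact absurd h (by norm_num)
    · rw [Finset.mem_biUnion] at h
      obtain ⟨j, _, hj⟩ := h
      rw [Multiset.mem_toFinset, Multiset.mem_map] at hj
      obtain ⟨q, hq, hq0⟩ := hj
      have := (hQ j).2 q hq
      omega
  have h1 := H (∑ j, C (ε j) * X ^ e j * gap (Q j)) hirr hM (Fin A) Finset.univ
    (fun j z => (ε j : ℂ) * z ^ e j * ((Q j).map fun q => z ^ (q.1 * q.2) - 1).prod)
    (fun _ => (2 : ℝ) ^ r)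
    (by
      intro j _ z hz
      have h2 : ‖((ε j : ℤ) : ℂ)‖ = 1 := by
        rw [Complex.norm_intCast]
        exact_mod_cast hε j
      rw [norm_mul, norm_mul, h2, norm_pow, hz, one_pow, one_mul, one_mul]
      exact (num_le (Q j) z hz).trans (pow_le_pow_right₀ (by norm_num) (hQ j).1))
    (fun j => (Q j).map Prod.snd) B r hB hB0
    (by
      intro j _
      refine ⟨by rw [Multiset.card_map]; exact (hQ j).1, ?_⟩
      intro b hb
      obtain ⟨q, hq, rfl⟩ := Multiset.mem_map.1 hb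
      exact hmem j q hq)
    (by
      intro z hz hzB
      rw [map_sum]
      apply Finset.sum_congr rfl
      intro j _
      rw [map_mul, map_mul, map_pow, aeval_X, gap_val (Q j) z fun q hq => hzB _ (hmem j q hq),
        mul_div_assoc]
      congr 2
      simp)
  refine le_trans ?_ h1
  have hA1 : (1 : ℝ) ≤ A := by exact_mod_cast hA
  have hr0 : (0 : ℝ) ≤ r := by positivity
  have hcard1 : (1 : ℝ) ≤ B.card := by exact_mod_cast hB.card_pos
  have hcard2 : (B.card : ℝ) ≤ (1 + r) * A := by exact_mod_cast hBc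
  set Λ := Real.log ((1 + r) * A) with hΛ
  have hΛ0 : 0 ≤ Λ := Real.log_nonneg (by nlinarith)
  have hlb : Real.log B.card ≤ Λ := Real.log_le_log (by linarith) hcard2
  have hlb0 : 0 ≤ Real.log B.card := Real.log_nonneg hcard1
  have hlA : Real.log A ≤ Λ := Real.log_le_log (by linarith) (by nlinarith)
  have hl2 : Real.log 2 ≤ 1 := by
    have := Real.log_le_sub_one_of_pos (x := 2) (by norm_num)
    linarith
  have hl20 : 0 ≤ Real.log 2 := Real.log_nonneg (by norm_num)
  have hsum : 1 + ∑ j ∈ (Finset.univ : Finset (Fin A)), (2 : ℝ) ^ r ≤ 2 * (A * 2 ^ r) := by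
    simp only [Finset.sum_const, Finset.card_univ, Fintype.card_fin, nsmul_eq_mul]
    have : (1 : ℝ) ≤ 2 ^ r := one_le_pow₀ (by norm_num)
    nlinarith
  have hls : Real.log (1 + ∑ j ∈ (Finset.univ : Finset (Fin A)), (2 : ℝ) ^ r) ≤
      Real.log 2 + (Real.log A + r * Real.log 2) := by
    have h3 := Real.log_le_log (by positivity) hsum
    rwa [Real.log_mul (by norm_num) (by positivity), Real.log_mul (by positivity) (by positivity),
      Real.log_pow] at h3
  have hls0 : 0 ≤ Real.log (1 + ∑ j ∈ (Finset.univ : Finset (Fin A)), (2 : ℝ) ^ r) :=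
    Real.log_nonneg (by
      have : 0 ≤ ∑ j ∈ (Finset.univ : Finset (Fin A)), (2 : ℝ) ^ r := by positivity
      linarith)
  have h5 : 1 + Real.log (1 + ∑ j ∈ (Finset.univ : Finset (Fin A)), (2 : ℝ) ^ r) +
      r * (1 + Real.log B.card) ≤ 4 * ((1 + r) * (1 + Λ)) := by
    have h6 := mul_le_mul_of_nonneg_left hlb hr0
    have h7 := mul_nonneg hr0 hΛ0
    have h8 := mul_le_mul_of_nonneg_left hl2 hr0
    nlinarith
  rw [div_div, div_le_div_iff_of_pos_left hc (by positivity) (by positivity)]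
  calc _ ≤ (4 * ((1 + r) * (1 + Λ))) ^ 3 := pow_le_pow_left₀ (by positivity) h5 3
    _ = _ := by ring

end Pool.Agent.Q168.Lehmer
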